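import Pool.Agent.TH363.QI.Cyc
import Pool.Agent.H712R2.MultiBott

/-!
# Parabolic parameters in a ball containing both a parameter with an attracting cycle and one without
-/

set_option autoImplicit false

open Complex Metric Set Filter Topology Pool.Agent.H712R2 Polynomial

namespace Pool.Agent.Y932.ML

open Pool.Agent.TH363.QI

/-- every number of modulus one is a limit of roots of unity other than one -/
theorem exists_roots (l₀ : ℂ) (h : ‖l₀‖ = 1) : ∃ s : ℕ → ℂ, Tendsto s atTop (𝓝 l₀) ∧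
    ∀ j, s j ≠ 1 ∧ (s j) ^ (j + 2) = 1 := by
  obtain ⟨θ, rfl⟩ : ∃ θ : ℝ, l₀ = Complex.exp (θ * I) := by
    refine ⟨Complex.arg l₀, ?_⟩
    have := Complex.norm_mul_exp_arg_mul_I l₀
    rw [h] at this
    simpa using this.symm
  set p : ℕ → ℤ := fun j => ⌊θ / (2 * Real.pi) * ((j : ℝ) + 2)⌋ with hp
  set p' : ℕ → ℤ := fun j => if ((j : ℤ) + 2) ∣ p j then p j + 1 else p j with hp'
  have hnd : ∀ j : ℕ, ¬ ((j : ℤ) + 2) ∣ p' j := by
    intro j
    simp only [hp']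
    split_ifs with h1
    · intro h2
      have h3 : ((j : ℤ) + 2) ∣ 1 := by
        have := Int.dvd_sub h2 h1
        simpa using this
      have h4 := Int.le_of_dvd (by norm_num) h3
      omega
    · exact h1
  have hbd : ∀ j : ℕ, |(p' j : ℝ) - θ / (2 * Real.pi) * ((j : ℝ) + 2)| ≤ 1 := by
    intro j
    have h1 := Int.floor_le (θ / (2 * Real.pi) * ((j : ℝ) + 2))
    have h2 := Int.lt_floor_add_one (θ / (2 * Real.pi) * ((j : ℝ) + 2))
    rw [abs_le]
    simp only [hp', hp]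
    split_ifs with h3
    · push_cast
      constructor <;> linarith
    · constructor <;> linarith
  refine ⟨fun j => Complex.exp (((2 * Real.pi * (p' j) / ((j : ℝ) + 2) : ℝ) : ℂ) * I), ?_, ?_⟩
  · have h1 : Tendsto (fun j : ℕ => (2 * Real.pi * (p' j) / ((j : ℝ) + 2) : ℝ)) atTop (𝓝 θ) := by
      have h2 : Tendsto (fun j : ℕ => (2 * Real.pi) * (1 / ((j : ℝ) + 2))) atTop (𝓝 0) := by
        have h3 : Tendsto (fun j : ℕ => 1 / (((j + 1 : ℕ) : ℝ) + 1)) atTop (𝓝 0) :=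
          (tendsto_one_div_add_atTop_nhds_zero_nat (𝕜 := ℝ)).comp (tendsto_add_atTop_nat 1)
        have h4 := h3.const_mul (2 * Real.pi)
        rw [mul_zero] at h4
        refine h4.congr fun j => ?_
        push_cast
        ring
      rw [tendsto_iff_dist_tendsto_zero]
      refine squeeze_zero (fun _ => dist_nonneg) (fun j => ?_) h2
      rw [Real.dist_eq]
      have hj : (0 : ℝ) < (j : ℝ) + 2 := by positivity
      have e : 2 * Real.pi * (p' j) / ((j : ℝ) + 2) - θ =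
          (2 * Real.pi) * (1 / ((j : ℝ) + 2)) * ((p' j : ℝ) - θ / (2 * Real.pi) * ((j : ℝ) + 2)) := by
        field_simp
      rw [e, abs_mul, abs_of_nonneg (by positivity)]
      have := hbd j
      have h5 : (0 : ℝ) ≤ (2 * Real.pi) * (1 / ((j : ℝ) + 2)) := by positivity
      calc (2 * Real.pi) * (1 / ((j : ℝ) + 2)) * |(p' j : ℝ) - θ / (2 * Real.pi) * ((j : ℝ) + 2)|
          ≤ (2 * Real.pi) * (1 / ((j : ℝ) + 2)) * 1 := mul_le_mul_of_nonneg_left this h5
        _ = _ := mul_one _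
    have h2 : Continuous fun x : ℝ => Complex.exp ((x : ℂ) * I) := by fun_prop
    exact (h2.tendsto θ).comp h1
  · intro j
    constructor
    · intro h1
      rw [Complex.exp_eq_one_iff] at h1
      obtain ⟨n, hn⟩ := h1
      apply hnd j
      refine ⟨n, ?_⟩
      have hj : ((j : ℂ) + 2) ≠ 0 := by
        have : ((j + 2 : ℕ) : ℂ) ≠ 0 := by exact_mod_cast (by omega : j + 2 ≠ 0)
        push_cast at this
        exact this
      have hpi : (Real.pi : ℂ) ≠ 0 := by exact_mod_cast Real.pi_ne_zero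
      have h2 : (p' j : ℂ) = ((j : ℂ) + 2) * n := by
        push_cast at hn
        have h3 : (2 * (Real.pi : ℂ) * (p' j) / ((j : ℂ) + 2)) = n * (2 * Real.pi) := by
          have h4 : (2 * (Real.pi : ℂ) * (p' j) / ((j : ℂ) + 2)) * I = (n * (2 * Real.pi)) * I := by
            rw [hn]; ring
          exact mul_right_cancel₀ I_ne_zero h4
        rw [div_eq_iff hj] at h3
        have h5 : (2 * (Real.pi : ℂ)) * (p' j) = (2 * (Real.pi : ℂ)) * (((j : ℂ) + 2) * n) := by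
          rw [h3]; ring
        exact mul_left_cancel₀ (mul_ne_zero two_ne_zero hpi) h5
      exact_mod_cast h2
    · rw [← Complex.exp_nat_mul]
      rw [Complex.exp_eq_one_iff]
      refine ⟨p' j, ?_⟩
      have hj : ((j : ℂ) + 2) ≠ 0 := by
        have : ((j + 2 : ℕ) : ℂ) ≠ 0 := by exact_mod_cast (by omega : j + 2 ≠ 0)
        push_cast at this
        exact this
      push_cast
      field_simp

/-- Hurwitz in the parameter -/
theorem hur_t {n : ℕ} (hn : 2 ≤ n) {p : ℕ} (hp : 1 ≤ p) {a : ℂ} {r : ℝ} {s : ℕ → ℂ} {l₀ : ℂ}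
    (hl : ‖l₀‖ = 1) (hst : Tendsto s atTop (𝓝 l₀)) (hsn : ∀ j, ‖s j‖ ≤ 1)
    (hne : ∀ j, ∀ t ∈ ball a r, ev t (s j) (Rr n p) ≠ 0) {t₀ : ℂ} (ht₀ : t₀ ∈ ball a r) :
    ev t₀ l₀ (Rr n p) ≠ 0 := by
  intro h0
  have hV : IsOpen (ball a r) := isOpen_ball
  obtain ⟨M, hM⟩ : ∃ M : ℝ, ∀ x ∈ closedBall a r ×ˢ closedBall (0 : ℂ) 1,
      ‖ev x.1 x.2 (Rr n p)‖ ≤ M :=
    ((isCompact_closedBall a r).prod (isCompact_closedBall (0 : ℂ) 1)).exists_bound_of_continuousOn
      (continuous_ev (Rr n p)).continuousOn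
  have hlim : TendstoLocallyUniformlyOn (fun j t => (Ql n p (s j)).eval t)
      (fun t => (Ql n p l₀).eval t) atTop (ball a r) := by
    apply Pool.Agent.Helper859.Br.C1.tlu_of_pointwise hV (M := M)
    · intro j
      exact (Ql n p (s j)).differentiable.differentiableOn
    · intro j t ht
      rw [eval_Ql]
      exact hM (t, s j) ⟨ball_subset_closedBall ht, by
        rw [mem_closedBall, dist_zero_right]; exact hsn j⟩
    · intro t _
      have h1 : Tendsto (fun x : ℂ × ℂ => ev x.1 x.2 (Rr n p)) (𝓝 (t, l₀))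
          (𝓝 (ev t l₀ (Rr n p))) := (continuous_ev (Rr n p)).tendsto (t, l₀)
      have h2 : Tendsto (fun j => (t, s j)) atTop (𝓝 (t, l₀)) :=
        tendsto_const_nhds.prodMk_nhds hst
      have h3 : Tendsto (fun j => ev t (s j) (Rr n p)) atTop (𝓝 (ev t l₀ (Rr n p))) := h1.comp h2
      rw [eval_Ql]
      refine h3.congr fun j => ?_
      rw [eval_Ql]
  have hne' : ∀ j, ∀ t ∈ ball a r, (Ql n p (s j)).eval t ≠ 0 := by
    intro j t ht h
    exact hne j t ht (by rw [← eval_Ql]; exact h)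
  have h0' : (Ql n p l₀).eval t₀ = 0 := by
    rw [eval_Ql]
    exact h0
  have hev := Pool.Agent.Helper859.Br.C1.hurwitz hV
    (fun j => (Ql n p (s j)).differentiable.differentiableOn) hlim hne' ht₀ h0'
  have hQ : Ql n p l₀ = 0 := by
    apply Polynomial.eq_zero_of_infinite_isRoot
    have h1 : {z | (Ql n p l₀).eval z = 0} ∈ 𝓝 t₀ := hev
    have h2 : {z | (Ql n p l₀).eval z = 0}.Infinite := infinite_of_mem_nhds t₀ h1
    exact h2
  have h1 : ev 0 l₀ (Rr n p) = 0 := by rw [← eval_Ql, hQ, Polynomial.eval_zero]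
  obtain ⟨z, h2, h3⟩ := (ev_Rr hn hp 0 l₀).mp h1
  apply zero_case hn hp h2
  rw [h3, hl]

/-- the polynomial in the auxiliary variable -/
noncomputable def Tl (t : ℂ) (R : MvPolynomial (Fin 2) ℂ) : ℂ[X] :=
  MvPolynomial.aeval ![C t, (X : ℂ[X])] R

theorem eval_Tl (t l : ℂ) (R : MvPolynomial (Fin 2) ℂ) : (Tl t R).eval l = ev t l R := by
  have h : (Polynomial.aeval l : ℂ[X] →ₐ[ℂ] ℂ).comp
      (MvPolynomial.aeval ![C t, (X : ℂ[X])]) = MvPolynomial.aeval ![t, l] := by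
    apply MvPolynomial.algHom_ext
    intro i
    fin_cases i <;> simp
  have h2 := DFunLike.congr_fun h R
  simp only [AlgHom.comp_apply] at h2
  have e : ev t l = MvPolynomial.eval ![t, l] := by with_unfolding_all rfl
  rw [Tl, e]
  rw [← Polynomial.coe_aeval_eq_eval]
  rw [h2, ← MvPolynomial.coe_aeval_eq_eval]
  rfl

/-- Hurwitz in the auxiliary variable -/
theorem hur_l (R : MvPolynomial (Fin 2) ℂ) {t : ℕ → ℂ} {t₀ l₀ : ℂ} (hl : ‖l₀‖ < 1)
    (ht : Tendsto t atTop (𝓝 t₀)) (htb : ∀ k, t k ∈ closedBall t₀ 1)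
    (hne : ∀ k, ∀ l ∈ ball (0 : ℂ) 1, ev (t k) l R ≠ 0) (h0 : ev t₀ l₀ R = 0) (l : ℂ) :
    ev t₀ l R = 0 := by
  have hV : IsOpen (ball (0 : ℂ) 1) := isOpen_ball
  obtain ⟨M, hM⟩ : ∃ M : ℝ, ∀ x ∈ closedBall t₀ 1 ×ˢ closedBall (0 : ℂ) 1,
      ‖ev x.1 x.2 R‖ ≤ M :=
    ((isCompact_closedBall t₀ 1).prod (isCompact_closedBall (0 : ℂ) 1)).exists_bound_of_continuousOn
      (continuous_ev R).continuousOn
  have hlim : TendstoLocallyUniformlyOn (fun k l => (Tl (t k) R).eval l)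
      (fun l => (Tl t₀ R).eval l) atTop (ball (0 : ℂ) 1) := by
    apply Pool.Agent.Helper859.Br.C1.tlu_of_pointwise hV (M := M)
    · intro j
      exact (Tl (t j) R).differentiable.differentiableOn
    · intro j l hl
      rw [eval_Tl]
      exact hM (t j, l) ⟨htb j, ball_subset_closedBall hl⟩
    · intro l _
      have h1 : Tendsto (fun x : ℂ × ℂ => ev x.1 x.2 R) (𝓝 (t₀, l))
          (𝓝 (ev t₀ l R)) := (continuous_ev R).tendsto (t₀, l)
      have h2 : Tendsto (fun j => (t j, l)) atTop (𝓝 (t₀, l)) :=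
        ht.prodMk_nhds tendsto_const_nhds
      have h3 : Tendsto (fun j => ev (t j) l R) atTop (𝓝 (ev t₀ l R)) := h1.comp h2
      rw [eval_Tl]
      refine h3.congr fun j => ?_
      rw [eval_Tl]
  have hne' : ∀ j, ∀ l ∈ ball (0 : ℂ) 1, (Tl (t j) R).eval l ≠ 0 := by
    intro j l hl h
    exact hne j l hl (by rw [← eval_Tl]; exact h)
  have h0' : (Tl t₀ R).eval l₀ = 0 := by
    rw [eval_Tl]
    exact h0
  have hev := Pool.Agent.Helper859.Br.C1.hurwitz hV
    (fun j => (Tl (t j) R).differentiable.differentiableOn) hlim hne'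
    (show l₀ ∈ ball (0 : ℂ) 1 by rw [mem_ball_zero_iff]; exact hl) h0'
  have hQ : Tl t₀ R = 0 := by
    apply Polynomial.eq_zero_of_infinite_isRoot
    have h1 : {z | (Tl t₀ R).eval z = 0} ∈ 𝓝 l₀ := hev
    have h2 : {z | (Tl t₀ R).eval z = 0}.Infinite := infinite_of_mem_nhds l₀ h1
    exact h2
  rw [← eval_Tl, hQ, Polynomial.eval_zero]

theorem exists_parabolic {c : ℂ} {r : ℝ} {m : ℕ} (hm : 1 ≤ m)
    (h1 : ∃ t ∈ ball c r, ∃ z, (fc 2 t)^[m] z = z ∧ ‖deriv ((fc 2 t)^[m]) z‖ < 1)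
    (h2 : ∃ t ∈ ball c r, ∀ z, (fc 2 t)^[m] z = z → 1 ≤ ‖deriv ((fc 2 t)^[m]) z‖) :
    ∃ t ∈ ball c r, ∃ (z : ℂ) (q : ℕ), 2 ≤ q ∧ (fc 2 t)^[m] z = z ∧
      deriv ((fc 2 t)^[m]) z ≠ 1 ∧ (deriv ((fc 2 t)^[m]) z) ^ q = 1 := by
  have horb : ∀ t z : ℂ, (fc 2 t)^[m] z = Pool.Agent.W746.LD.orb 2 t z m := fun _ _ => rfl
  have hder : ∀ t z : ℂ, deriv ((fc 2 t)^[m]) z = Pool.Agent.W746.LD.P 2 t z m := by
    intro t z
    exact (Pool.Agent.W746.LD.hasDerivAt_orb (n := 2) (c := t) z m).deriv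
  simp only [horb, hder] at h1 h2 ⊢
  by_contra hcon
  push Not at hcon
  -- no multiplier of modulus one in the ball
  have step1 : ∀ l : ℂ, ‖l‖ = 1 → ∀ t ∈ ball c r, ev t l (Rr 2 m) ≠ 0 := by
    intro l hl t ht
    obtain ⟨s, hs1, hs2⟩ := exists_roots l hl
    refine hur_t le_rfl hm hl hs1 (fun j => ?_) (fun j t ht h0 => ?_) ht
    · have h3 : ‖s j‖ ^ (j + 2) = 1 := by rw [← norm_pow, (hs2 j).2, norm_one]
      exact ((pow_eq_one_iff_of_nonneg (norm_nonneg _) (by omega)).mp h3).le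
    · obtain ⟨z, h3, h4⟩ := (ev_Rr le_rfl hm t (s j)).mp h0
      refine hcon t ht z (j + 2) (by omega) h3 ?_ ?_
      · rw [h4]; exact (hs2 j).1
      · rw [h4]; exact (hs2 j).2
  set S : Set ℂ := {t | ∃ l ∈ ball (0 : ℂ) 1, ev t l (Rr 2 m) = 0} with hS
  -- open
  have hopen : ∀ t ∈ ball c r, t ∈ S → S ∈ 𝓝 t := by
    intro t₀ ht₀ hS0
    by_contra hnot
    obtain ⟨l₀, hl₀, h0⟩ := hS0
    have hcl : t₀ ∈ closure (Sᶜ ∩ closedBall t₀ 1) := by
      rw [mem_closure_iff_nhds]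
      intro V hV
      have h3 : ¬ (V ∩ ball t₀ 1) ⊆ S := fun h => hnot (mem_of_superset
        (inter_mem hV (ball_mem_nhds t₀ one_pos)) h)
      obtain ⟨x, hx, hxS⟩ := not_subset.1 h3
      exact ⟨x, hx.1, hxS, ball_subset_closedBall hx.2⟩
    obtain ⟨t, ht, htt⟩ := mem_closure_iff_seq_limit.1 hcl
    have h4 := hur_l (Rr 2 m) (t := t) (mem_ball_zero_iff.1 hl₀) htt (fun k => (ht k).2)
      (fun k l hl h => (ht k).1 ⟨l, hl, h⟩) h0 1
    exact step1 1 norm_one t₀ ht₀ h4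
  -- closed
  have hclosed : ∀ t ∈ ball c r, t ∈ closure S → t ∈ S := by
    intro t₀ ht₀ hcl
    have : CompactSpace (closedBall (0 : ℂ) 1) := isCompact_iff_compactSpace.1 (isCompact_closedBall _ _)
    have hC : IsClosed ((Prod.snd : closedBall (0 : ℂ) 1 × ℂ → ℂ) ''
        {x | ev x.2 (x.1 : ℂ) (Rr 2 m) = 0}) := by
      apply isClosedMap_snd_of_compactSpace
      have h3 : Continuous fun x : closedBall (0 : ℂ) 1 × ℂ => ev x.2 (x.1 : ℂ) (Rr 2 m) :=
        (continuous_ev (Rr 2 m)).comp (continuous_snd.prodMk (continuous_subtype_val.comp continuous_fst))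
      exact isClosed_eq h3 continuous_const
    have hsub : S ⊆ (Prod.snd : closedBall (0 : ℂ) 1 × ℂ → ℂ) ''
        {x | ev x.2 (x.1 : ℂ) (Rr 2 m) = 0} := by
      rintro t ⟨l, hl, h0⟩
      exact ⟨(⟨l, ball_subset_closedBall hl⟩, t), h0, rfl⟩
    obtain ⟨⟨⟨l, hl⟩, t⟩, h0, rfl⟩ := closure_minimal hsub hC hcl
    have h0' : ev t l (Rr 2 m) = 0 := h0
    have hl1 : ‖l‖ ≤ 1 := mem_closedBall_zero_iff.1 hl
    refine ⟨l, mem_ball_zero_iff.2 (lt_of_le_of_ne hl1 fun h => ?_), h0'⟩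
    exact step1 l h t ht₀ h0'
  -- conclusion
  have hU : IsPreconnected (ball c r) := (convex_ball c r).isPreconnected
  have hO : IsOpen (S ∩ ball c r) := by
    rw [isOpen_iff_mem_nhds]
    rintro t ⟨h3, h4⟩
    exact inter_mem (hopen t h4 h3) (isOpen_ball.mem_nhds h4)
  have hne : (ball c r ∩ (S ∩ ball c r)).Nonempty := by
    obtain ⟨t, ht, z, h3, h4⟩ := h1
    exact ⟨t, ht, ⟨Pool.Agent.W746.LD.P 2 t z m, mem_ball_zero_iff.2 h4,
      (ev_Rr le_rfl hm t _).mpr ⟨z, h3, rfl⟩⟩, ht⟩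
  have hsubset := hU.subset_of_closure_inter_subset hO hne (by
    rintro t ⟨h3, h4⟩
    exact ⟨hclosed t h4 (closure_mono inter_subset_left h3), h4⟩)
  obtain ⟨t, ht, h3⟩ := h2
  obtain ⟨l, hl, h4⟩ := (hsubset ht).1
  obtain ⟨z, h5, h6⟩ := (ev_Rr le_rfl hm t l).mp h4
  have h7 := h3 z h5
  rw [h6] at h7
  exact absurd (mem_ball_zero_iff.1 hl) (not_lt.2 h7)

end Pool.Agent.Y932.ML
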